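import Mathlib

/-!
# Geometric origin of lisse sheaves: products, fibrations, dominated varieties

Definitions for `MP_80bee4_ag`.

`K` is `ℚ̄_ℓ`.  An object is a smooth variety `X` over a finite field, geometrically connected over
its field of constants `𝔽_{q_X}` (case (a)), or the complement `X` of a strict normal crossings
divisor in a smooth proper variety, in which case only sheaves tame along the divisor are considered
(case (b)).  `W X` is the Weil group of `X` (in case (b) its tame quotient): the elements of `π₁(X)`
of integral degree, with the topology for which `π₁` of `X` over the algebraic closure of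
`𝔽_{q_X}` is open and has its usual topology; `deg X` takes the geometric Frobenius of `𝔽_{q_X}` to
`1`.  An irreducible lisse sheaf with determinant of finite order (tame in case (b)) is the same as
an irreducible continuous representation of `W X` with determinant of finite order (Deligne,
Weil II, 1.3.14).

`Geo X A`: for an algebraic variety `Z` over the function field `k(X)`, an `i ≥ 0` and an integer
`n`, the representation `A` of `W X` is isomorphic to a subquotient of `H^i(Z ⊗ k(X)^-)(n)`, as a
representation of the Weil group of `k(X)`.  By density of the Weil group in the Galois group this is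
the condition of Q1 when `A` comes from an irreducible lisse sheaf with determinant of finite order.
-/

namespace Pool.Agent.N522.GO

open TensorProduct

/-! ## Representations -/

/-- A `K`-linear representation of the group `G`. -/
structure Rep (K G : Type) [Field K] [Group G] where
  V : Type
  [grp : AddCommGroup V]
  [mod : Module K V]
  ρ : G →* Module.End K V

attribute [instance] Rep.grp Rep.mod

section
variable {K G H : Type} [Field K] [Group G] [Group H]

/-- the action of `g` on `v`, that is `A.ρ g v` -/
abbrev act (A : Rep K G) (g : G) (v : A.V) : A.V := A.ρ g v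

/-- `U` is stable under the group. -/
def Stable (A : Rep K G) (U : Submodule K A.V) : Prop :=
  ∀ (g : G) (v : A.V), v ∈ U → act A g v ∈ U

/-- `A` is irreducible. -/
def Irr (A : Rep K G) : Prop :=
  Nontrivial A.V ∧ ∀ U : Submodule K A.V, Stable A U → U = ⊥ ∨ U = ⊤

/-- `A` is isomorphic to a subquotient of `B`: there are a stable subspace `U` of `B` and a linear
map `p` (extended in any way from `U` to `B`) such that `p` maps `U` onto `A` and is equivariant on
`U`. -/
def IsSubquot (A B : Rep K G) : Prop :=
  ∃ (U : Submodule K B.V) (p : B.V →ₗ[K] A.V), Stable B U ∧ (∀ a : A.V, ∃ u ∈ U, p u = a) ∧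
    ∀ (g : G) (u : B.V), u ∈ U → p (act B g u) = act A g (p u)

/-- `A` is finite-dimensional and continuous. -/
def IsRep [TopologicalSpace K] [TopologicalSpace G] (A : Rep K G) : Prop :=
  FiniteDimensional K A.V ∧
    ∀ (φ : Module.Dual K A.V) (v : A.V), Continuous fun g => φ (act A g v)

/-- the determinant of `A` is a character of finite order. -/
def FiniteDet (A : Rep K G) : Prop :=
  ∃ n : ℕ, 0 < n ∧ ∀ g : G, (LinearMap.det (A.ρ g)) ^ n = 1

/-- Restriction of `A` along `f`. -/
def pull (f : G →* H) (A : Rep K H) : Rep K G where
  V := A.V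
  ρ := A.ρ.comp f

/-- The character `g ↦ c ^ d(g)`. -/
noncomputable def chr (d : G →* Multiplicative ℤ) (c : Kˣ) : G →* Kˣ :=
  (zpowersHom Kˣ c).comp d

/-- the action on `A ⊗ c ^ d` -/
noncomputable def twistAct (d : G →* Multiplicative ℤ) (c : Kˣ) (A : Rep K G) (g : G) :
    Module.End K A.V :=
  ((chr d c g : Kˣ) : K) • A.ρ g

theorem twistAct_one (d : G →* Multiplicative ℤ) (c : Kˣ) (A : Rep K G) :
    twistAct d c A 1 = 1 := by
  simp [twistAct]

theorem twistAct_mul (d : G →* Multiplicative ℤ) (c : Kˣ) (A : Rep K G) (g h : G) :
    twistAct d c A (g * h) = twistAct d c A g * twistAct d c A h := by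
  simp only [twistAct, map_mul, Units.val_mul]
  rw [smul_mul_smul_comm]

/-- `A ⊗ c ^ d`. -/
noncomputable def twist (d : G →* Multiplicative ℤ) (c : Kˣ) (A : Rep K G) : Rep K G where
  V := A.V
  ρ := MonoidHom.mk (OneHom.mk (twistAct d c A) (twistAct_one d c A)) (twistAct_mul d c A)

/-- the space `A ⊗ B` -/
def TV (A B : Rep K G) : Type := A.V ⊗[K] B.V

noncomputable instance TVgrp (A B : Rep K G) : AddCommGroup (TV A B) :=
  inferInstanceAs (AddCommGroup (A.V ⊗[K] B.V))

noncomputable instance TVmod (A B : Rep K G) : Module K (TV A B) :=
  inferInstanceAs (Module K (A.V ⊗[K] B.V))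

/-- the action on `A ⊗ B` -/
noncomputable def tensorAct (A B : Rep K G) (g : G) : Module.End K (TV A B) :=
  TensorProduct.map (A.ρ g) (B.ρ g)

theorem tensorAct_one (A B : Rep K G) : tensorAct A B 1 = 1 := by
  unfold tensorAct
  rw [map_one, map_one]; exact TensorProduct.map_one

theorem tensorAct_mul (A B : Rep K G) (g h : G) :
    tensorAct A B (g * h) = tensorAct A B g * tensorAct A B h := by
  unfold tensorAct
  rw [map_mul, map_mul]; exact TensorProduct.map_mul _ _ _ _

/-- the action on `A ⊗ B` as a homomorphism -/
noncomputable def tensorHom (A B : Rep K G) : G →* Module.End K (TV A B) :=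
  MonoidHom.mk (OneHom.mk (tensorAct A B) (tensorAct_one A B)) (tensorAct_mul A B)

/-- `A ⊗ B`. -/
noncomputable def tensor (A B : Rep K G) : Rep K G where
  V := TV A B
  ρ := tensorHom A B

end

/-! ## Varieties -/

/-- The data of the geometric situation. -/
structure Data (K : Type) [Field K] where
  /-- the objects, see above -/
  Obj : Type
  /-- their Weil groups -/
  W : Obj → Type
  [grp : ∀ X, Group (W X)]
  [top : ∀ X, TopologicalSpace (W X)]
  /-- the degree -/
  deg : ∀ X, W X →* Multiplicative ℤ
  /-- dimension at most one -/
  Base : Obj → Prop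
  /-- the Künneth formula holds for the product -/
  Kun : Obj → Obj → Prop
  prod : Obj → Obj → Obj
  fst : ∀ X Y, W (prod X Y) →* W X
  snd : ∀ X Y, W (prod X Y) →* W Y
  /-- `X → Y` is a smooth proper fibration, the fibres having virtually abelian `π₁` -/
  Fib : Obj → Obj → Prop
  /-- `Y` dominates `X` -/
  Dom : Obj → Obj → Prop
  /-- geometric origin -/
  Geo : ∀ X, Rep K (W X) → Prop

attribute [instance] Data.grp Data.top

section
variable {K : Type} [Field K] [TopologicalSpace K]

/-- `Q1` for the object `X`. -/
def Good (T : Data K) (X : T.Obj) : Prop :=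
  ∀ A : Rep K (T.W X), IsRep A → Irr A → FiniteDet A → T.Geo X A

/-- Facts on Weil groups.  `prof`: the geometric `π₁` is a closed subgroup of the profinite group
`π₁(X)`. -/
structure WeilFacts (T : Data K) : Prop where
  topgrp : ∀ X, IsTopologicalGroup (T.W X)
  deg_cont : ∀ X, Continuous (T.deg X)
  deg_surj : ∀ X, Function.Surjective (T.deg X)
  prof : ∀ (X : T.Obj) (O : Set (T.W X)), IsOpen O → 1 ∈ O →
    ∃ N : Subgroup (T.W X), N.Normal ∧ N.FiniteIndex ∧ IsOpen (N : Set (T.W X)) ∧
      ∀ h ∈ N, T.deg X h = 1 → h ∈ O

/-- Facts on representations of geometric origin.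

* `sub` is clear; `tensor` is the Künneth formula in étale cohomology;
* `artin`: a continuous representation with finite image is a quotient of `H^0` of a finite
  `k(X)`-scheme;
* `twist`: if `A` is geometric and irreducible and `A ⊗ c^deg` has determinant of finite order then
  `c` is a Weil number of integral weight which is an `ℓ`-adic unit (Deligne), and up to a Tate twist
  the character `c^deg` occurs in the cohomology of a variety over the finite field (Honda, Milne);
* `untwist`: a character of `W X` is a character of finite order times some `c^deg` (Deligne,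
  Weil II, 1.3.4);
* `base`: dimension one is the theorem of L. Lafforgue, dimension zero is clear. -/
structure GeoFacts (T : Data K) : Prop where
  sub : ∀ (X : T.Obj) (A B : Rep K (T.W X)), IsSubquot A B → T.Geo X B → T.Geo X A
  tensor : ∀ (X : T.Obj) (A B : Rep K (T.W X)), T.Geo X A → T.Geo X B → T.Geo X (tensor A B)
  artin : ∀ (X : T.Obj) (A : Rep K (T.W X)), IsRep A → (Set.range A.ρ).Finite → T.Geo X A
  twist : ∀ (X : T.Obj) (A : Rep K (T.W X)) (c : Kˣ), IsRep A → Irr A → T.Geo X A →
    FiniteDet (twist (T.deg X) c A) → T.Geo X (twist (T.deg X) c A)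
  untwist : ∀ (X : T.Obj) (A : Rep K (T.W X)), IsRep A → Irr A →
    ∃ c : Kˣ, FiniteDet (GO.twist (T.deg X) c A)
  base : ∀ X : T.Obj, T.Base X → Good T X

/-- the degree -/
abbrev dg (T : Data K) (X : T.Obj) (w : T.W X) : Multiplicative ℤ := T.deg X w

/-- the map `W (X × Y) → W X × W Y` -/
abbrev pr (T : Data K) (X Y : T.Obj) (w : T.W (T.prod X Y)) : T.W X × T.W Y :=
  (T.fst X Y w, T.snd X Y w)

/-- The Künneth formula for `π₁` of `X × Y` (the product over the common field of constants
`𝔽_q`): `W (X × Y)` is the fibre product of `W X` and `W Y` over `ℤ`.  It holds if both objects are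
of type (a) and `X` is proper, and if both are of type (b). -/
structure KunnethFacts (T : Data K) (X Y : T.Obj) : Prop where
  deg_fst : ∀ w, dg T X (pr T X Y w).1 = dg T (T.prod X Y) w
  deg_snd : ∀ w, dg T Y (pr T X Y w).2 = dg T (T.prod X Y) w
  ex : ∀ (a : T.W X) (b : T.W Y), dg T X a = dg T Y b → ∃ w, pr T X Y w = (a, b)
  inj : Function.Injective (pr T X Y)
  ind : Topology.IsInducing (pr T X Y)
  geo_fst : ∀ A, T.Geo X A → T.Geo (T.prod X Y) (pull (T.fst X Y) A)
  geo_snd : ∀ A, T.Geo Y A → T.Geo (T.prod X Y) (pull (T.snd X Y) A)

/-- `f` is the homomorphism induced by a smooth proper morphism `X → Y` with geometrically connected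
fibres (type (a)). -/
structure IsFibration (T : Data K) (X Y : T.Obj) (f : T.W X →* T.W Y) : Prop where
  surj : Function.Surjective f
  quot : Topology.IsQuotientMap f
  deg : ∀ w, T.deg Y (f w) = T.deg X w
  geo : ∀ A, T.Geo Y A → T.Geo X (pull f A)

end

/-- the set `A` is covered by finitely many left translates of the set `B` -/
def Covered {G : Type} [Group G] (A B : Set G) : Prop :=
  ∃ S : Set G, S.Finite ∧ ∀ a ∈ A, ∃ s ∈ S, ∃ b ∈ B, a = s * b

/-- The kernel of `f` has an abelian subgroup `M` of finite index, normal in `G`, on which the powers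
of some `F ∈ G` have finite coinvariants.

For a fibration `X → Y` as above whose geometric fibres have virtually abelian `π₁`, the kernel of
`W X → W Y` is the image of `π₁` of a geometric fibre, `M` is the image of a characteristic abelian
open subgroup of `π₁` of the geometric generic fibre, and `F` is the Frobenius element of any closed
point of `X`: the coinvariants of its powers on `π₁^ab` of a smooth proper variety over a finite
field are finite (Katz-Lang). -/
def VirtAb {G H : Type} [Group G] [Group H] (f : G →* H) : Prop :=
  ∃ (M : Subgroup G) (F : G), M.Normal ∧ (∀ m ∈ M, f m = 1) ∧ (∀ a ∈ M, ∀ b ∈ M, a * b = b * a) ∧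
    Covered {g | f g = 1} (M : Set G) ∧
    ∀ k : ℕ, 0 < k → Covered (M : Set G) {x | ∃ m ∈ M, x = F ^ k * m * (F ^ k)⁻¹ * m⁻¹}

section
variable {K : Type} [Field K] [TopologicalSpace K]

/-- `f : W Y → W X` is induced by a dominant morphism `U → X`, where `U` is an open subset of `Y`
whose complement has codimension at least two (so `U` and `Y` have the same `π₁`, by purity), and
under which allowed sheaves on `X` pull back to allowed sheaves on `Y`; `m` is the degree of the
extension of the fields of constants.  If `X` is proper every dominant rational map `Y ⇢ X` is of this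
kind.

`descent`: if an irreducible subquotient `B` of the pull-back of an irreducible `A` is geometric then
so is `A`: over a finite extension `L` of `k(X)` one has a point of `Y` at which a variety giving `B`
can be specialised, and `A` is a direct summand of a representation induced from `L`. -/
structure IsDominance (T : Data K) (Y X : T.Obj) (m : ℕ) (f : T.W Y →* T.W X) : Prop where
  pos : 0 < m
  cont : Continuous f
  deg : ∀ w, T.deg X (f w) = T.deg Y w ^ m
  descent : ∀ (A : Rep K (T.W X)) (B : Rep K (T.W Y)), IsRep A → Irr A → Irr B →
    IsSubquot B (pull f A) → T.Geo Y B → T.Geo X A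

/-- All the facts. -/
structure Facts (T : Data K) : Prop where
  weil : WeilFacts T
  geo : GeoFacts T
  kun : ∀ X Y, T.Kun X Y → KunnethFacts T X Y
  fib : ∀ X Y, T.Fib X Y → ∃ f : T.W X →* T.W Y, IsFibration T X Y f ∧ VirtAb f
  dom : ∀ Y X, T.Dom Y X → ∃ (m : ℕ) (f : T.W Y →* T.W X), IsDominance T Y X m f

end

/-- The smallest class containing `S` and everything of dimension at most one, and closed under
products (with a proper factor, or tame), fibrations and domination. -/
inductive Gen {K : Type} [Field K] (T : Data K) (S : T.Obj → Prop) : T.Obj → Prop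
  | mem (X : T.Obj) : S X → Gen T S X
  | base (X : T.Obj) : T.Base X → Gen T S X
  | prod (X Y : T.Obj) : T.Kun X Y → Gen T S X → Gen T S Y → Gen T S (T.prod X Y)
  | fib (X Y : T.Obj) : T.Fib X Y → Gen T S Y → Gen T S X
  | dom (Y X : T.Obj) : T.Dom Y X → Gen T S Y → Gen T S X

end Pool.Agent.N522.GO
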