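import Pool.Agent.N522.GO.Key

namespace Pool.Agent.N522.GO

open Module.End

section
variable {K G : Type} [Field K] [Group G]

/-- joint eigenspaces -/
def jE (V : Rep K G) (M : Subgroup G) (χ : M → K) : Submodule K V.V :=
  ⨅ m : M, (V.ρ m).eigenspace (χ m)

theorem mem_jE (V : Rep K G) (M : Subgroup G) (χ : M → K) (v : V.V) :
    v ∈ jE V M χ ↔ ∀ m : M, V.ρ m v = χ m • v := by
  unfold jE
  rw [Submodule.mem_iInf]
  exact forall_congr' fun m => Module.End.mem_eigenspace_iff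

theorem jE_comm (V : Rep K G) (M : Subgroup G) (hab : ∀ a ∈ M, ∀ b ∈ M, a * b = b * a)
    (a b : M) : Commute (V.ρ a) (V.ρ b) := by
  unfold Commute SemiconjBy
  rw [← map_mul, ← map_mul, hab a a.2 b b.2]

theorem jE_indep (V : Rep K G) (M : Subgroup G) (hab : ∀ a ∈ M, ∀ b ∈ M, a * b = b * a) :
    iSupIndep (jE V M) := by
  have h1 := Module.End.independent_iInf_maxGenEigenspace_of_forall_mapsTo
    (fun m : M => V.ρ m)
    (fun i j φ => Module.End.mapsTo_maxGenEigenspace_of_comm (jE_comm V M hab j i) φ)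
  refine h1.mono fun χ => ?_
  refine iInf_mono fun m => ?_
  exact Module.End.genEigenspace_le_maximal _ _ 1

theorem jE_conj (V : Rep K G) (M : Subgroup G) (hM : M.Normal) (χ : M → K) (g : G) (v : V.V)
    (hv : v ∈ jE V M χ) :
    V.ρ g v ∈ jE V M (fun m => χ ⟨g⁻¹ * m * g, by
      have := hM.conj_mem m m.2 g⁻¹; simpa using this⟩) := by
  rw [mem_jE] at hv ⊢
  intro m
  have h := hv ⟨g⁻¹ * m * g, by have := hM.conj_mem m m.2 g⁻¹; simpa using this⟩
  simp only at h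
  rw [← map_smul, ← h, ← act_mul, ← act_mul]
  congr 2
  group

theorem jE_exists [IsAlgClosed K] (V : Rep K G) (hfd : FiniteDimensional K V.V)
    (hnt : Nontrivial V.V) (M : Subgroup G) (hab : ∀ a ∈ M, ∀ b ∈ M, a * b = b * a) :
    ∃ χ : M → K, jE V M χ ≠ ⊥ := by
  obtain ⟨U, hU, -, hne, hmin⟩ := exists_min (pull M.subtype V) _ ⊤ (fun _ _ _ => trivial)
    (by rw [Ne, Submodule.eq_bot_iff]; intro h; obtain ⟨v, hv⟩ := exists_ne (0 : V.V)
        exact hv (h v trivial))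
    (show FiniteDimensional K (⊤ : Submodule K V.V) from inferInstance) rfl
  let U1 : Submodule K V.V := U
  have hU1 : ∀ m : M, ∀ v ∈ U1, V.ρ m v ∈ U1 := fun m v hv => hU m v hv
  have hne1 : U1 ≠ ⊥ := hne
  have : Nontrivial U1 := (Submodule.nontrivial_iff_ne_bot).mpr hne1
  have key : ∀ m : M, ∃ μ : K, ∀ u ∈ U1, V.ρ m u = μ • u := by
    intro m
    obtain ⟨μ, hμ⟩ := Module.End.exists_eigenvalue ((V.ρ m).restrict (hU1 m))
    obtain ⟨u, hu⟩ := hμ.exists_hasEigenvector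
    have hu1 : V.ρ m (u : V.V) = μ • (u : V.V) := by
      have := congrArg Subtype.val hu.apply_eq_smul
      simpa using this
    let W : Submodule K V.V := U1 ⊓ (V.ρ m).eigenspace μ
    have hW : Stable (pull M.subtype V) W := by
      intro a v hv
      change V.V at v
      obtain ⟨hv1, hv2⟩ := hv
      refine ⟨hU1 a v hv1, ?_⟩
      change V.ρ a v ∈ (V.ρ m).eigenspace μ
      have hv3 : V.ρ m v = μ • v := Module.End.mem_eigenspace_iff.mp hv2
      rw [Module.End.mem_eigenspace_iff, ← act_mul, hab m m.2 a a.2, act_mul, hv3, map_smul]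
    rcases hmin W hW inf_le_left with h | h
    · exfalso
      have : (u : V.V) ∈ W := ⟨u.2, Module.End.mem_eigenspace_iff.mpr hu1⟩
      rw [h] at this
      exact hu.2 (Subtype.ext this)
    · refine ⟨μ, fun v hv => ?_⟩
      have : v ∈ W := by rw [h]; exact hv
      exact Module.End.mem_eigenspace_iff.mp this.2
  choose χ hχ using key
  refine ⟨χ, ?_⟩
  obtain ⟨u, hu, hu0⟩ := Submodule.exists_mem_ne_zero_of_ne_bot hne1
  intro hb
  have : u ∈ jE V M χ := (mem_jE V M χ u).mpr fun m => hχ m u hu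
  rw [hb] at this
  exact hu0 this

theorem jE_sup [IsAlgClosed K] (V : Rep K G) (hV : Irr V) (hfd : FiniteDimensional K V.V)
    (M : Subgroup G) (hM : M.Normal) (hab : ∀ a ∈ M, ∀ b ∈ M, a * b = b * a) :
    ⨆ χ, jE V M χ = ⊤ := by
  obtain ⟨χ, hχ⟩ := jE_exists V hfd hV.1 M hab
  have hst : Stable V (⨆ χ, jE V M χ) := by
    intro g v hv
    have h1 : (⨆ χ, jE V M χ) ≤ (⨆ χ, jE V M χ).comap (V.ρ g) := by
      refine iSup_le fun χ => ?_
      intro w hw
      exact (le_iSup (jE V M) _) (jE_conj V M hM χ g w hw)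
    exact h1 hv
  rcases hV.2 _ hst with h | h
  · exfalso
    apply hχ
    rw [eq_bot_iff, ← h]
    exact le_iSup (jE V M) χ
  · exact h

theorem jE_mul (V : Rep K G) (M : Subgroup G) (χ : M → K) (h : jE V M χ ≠ ⊥) (a b : M) :
    χ (a * b) = χ a * χ b := by
  obtain ⟨v, hv, hv0⟩ := Submodule.exists_mem_ne_zero_of_ne_bot h
  rw [mem_jE] at hv
  have h1 := hv (a * b)
  rw [Subgroup.coe_mul, act_mul, hv b, map_smul, hv a, smul_smul] at h1
  have h2 : (χ b * χ a - χ (a * b)) • v = 0 := by rw [sub_smul, h1, sub_self]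
  rcases smul_eq_zero.mp h2 with h3 | h3
  · rw [mul_comm (χ a)]; exact (sub_eq_zero.mp h3).symm
  · exact absurd h3 hv0

theorem jE_one (V : Rep K G) (M : Subgroup G) (χ : M → K) (h : jE V M χ ≠ ⊥) :
    χ 1 = 1 := by
  obtain ⟨v, hv, hv0⟩ := Submodule.exists_mem_ne_zero_of_ne_bot h
  rw [mem_jE] at hv
  have h1 := hv 1
  rw [Subgroup.coe_one, map_one, Module.End.one_apply] at h1
  have h2 : (1 - χ 1) • v = 0 := by rw [sub_smul, ← h1, one_smul, sub_self]
  rcases smul_eq_zero.mp h2 with h3 | h3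
  · exact (sub_eq_zero.mp h3).symm
  · exact absurd h3 hv0

/-- The image of an abelian normal subgroup with finite coinvariants under powers of `F`. -/
theorem finite_abelian_image [IsAlgClosed K] (V : Rep K G) (hV : Irr V)
    (hfd : FiniteDimensional K V.V) (M : Subgroup G) (hM : M.Normal)
    (hab : ∀ a ∈ M, ∀ b ∈ M, a * b = b * a) (F : G)
    (hF : ∀ k : ℕ, 0 < k → ∃ S : Set G, S.Finite ∧ ∀ m ∈ M, ∃ s ∈ S, ∃ m' ∈ M,
      m = s * (F ^ k * m' * (F ^ k)⁻¹ * m'⁻¹)) :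
    (Set.range fun m : M => V.ρ m).Finite := by
  have hfin : {χ | jE V M χ ≠ ⊥}.Finite :=
    WellFoundedGT.finite_ne_bot_of_iSupIndep (jE_indep V M hab)
  have hrange : ∀ χ : M → K, jE V M χ ≠ ⊥ → (Set.range χ).Finite := by
    intro χ hχ
    obtain ⟨v, hv, hv0⟩ := Submodule.exists_mem_ne_zero_of_ne_bot hχ
    let c : ℕ → M → K := fun i m => χ ⟨(F ^ i)⁻¹ * m * F ^ i, by
      have := hM.conj_mem m m.2 (F ^ i)⁻¹; simpa using this⟩
    have hc : ∀ i, jE V M (c i) ≠ ⊥ := by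
      intro i hb
      have h1 : V.ρ (F ^ i) v ∈ jE V M (c i) := jE_conj V M hM χ (F ^ i) v hv
      rw [hb] at h1
      have h2 : V.ρ (F ^ i) v = 0 := h1
      apply hv0
      rw [← act_inv_act V (F ^ i) v, h2, map_zero]
    have hnin : ¬ Function.Injective c := by
      intro hinj
      have h1 : (Set.range c).Finite := hfin.subset (by rintro _ ⟨i, rfl⟩; exact hc i)
      exact Set.infinite_range_of_injective hinj h1
    obtain ⟨i, j, hij, hlt⟩ : ∃ i j, c i = c j ∧ i < j := by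
      unfold Function.Injective at hnin
      push Not at hnin
      obtain ⟨i, j, h1, h2⟩ := hnin
      rcases lt_or_gt_of_ne h2 with h | h
      · exact ⟨i, j, h1, h⟩
      · exact ⟨j, i, h1.symm, h⟩
    obtain ⟨k, rfl⟩ := Nat.exists_eq_add_of_lt hlt
    have hinv : ∀ m : M, ∀ h : F ^ (k + 1) * m * (F ^ (k + 1))⁻¹ ∈ M,
        χ ⟨F ^ (k + 1) * m * (F ^ (k + 1))⁻¹, h⟩ = χ m := by
      intro m h
      have h1 := congrFun hij ⟨F ^ (i + k + 1) * m * (F ^ (i + k + 1))⁻¹,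
        hM.conj_mem m m.2 _⟩
      simp only [c] at h1
      have e1 : (F ^ i)⁻¹ * (F ^ (i + k + 1) * m * (F ^ (i + k + 1))⁻¹) * F ^ i =
          F ^ (k + 1) * m * (F ^ (k + 1))⁻¹ := by
        rw [show i + k + 1 = i + (k + 1) by ring, pow_add F i (k + 1)]
        group
      have e2 : (F ^ (i + k + 1))⁻¹ * (F ^ (i + k + 1) * m * (F ^ (i + k + 1))⁻¹) *
          F ^ (i + k + 1) = m := by group
      have e1' : (⟨(F ^ i)⁻¹ * (F ^ (i + k + 1) * m * (F ^ (i + k + 1))⁻¹) * F ^ i, by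
          rw [e1]; exact h⟩ : M) = ⟨F ^ (k + 1) * m * (F ^ (k + 1))⁻¹, h⟩ := Subtype.ext e1
      have e2' : (⟨(F ^ (i + k + 1))⁻¹ * (F ^ (i + k + 1) * m * (F ^ (i + k + 1))⁻¹) *
          F ^ (i + k + 1), by rw [e2]; exact m.2⟩ : M) = m := Subtype.ext e2
      rw [← e1']
      conv_rhs => rw [← e2']
      exact h1
    obtain ⟨S, hS, hcov⟩ := hF (k + 1) (Nat.succ_pos k)
    have hS' : {s : M | (s : G) ∈ S}.Finite := hS.preimage Subtype.val_injective.injOn
    refine (hS'.image χ).subset ?_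
    rintro _ ⟨m, rfl⟩
    obtain ⟨s, hs, m', hm', he⟩ := hcov m m.2
    have hcM : F ^ (k + 1) * m' * (F ^ (k + 1))⁻¹ ∈ M := hM.conj_mem m' hm' _
    have hsM : s ∈ M := by
      have : s = m * (F ^ (k + 1) * m' * (F ^ (k + 1))⁻¹ * m'⁻¹)⁻¹ := by
        rw [he]; group
      rw [this]
      exact M.mul_mem m.2 (M.inv_mem (M.mul_mem hcM (M.inv_mem hm')))
    refine ⟨⟨s, hsM⟩, hs, ?_⟩
    have h5 : m = ⟨s, hsM⟩ * (⟨F ^ (k + 1) * m' * (F ^ (k + 1))⁻¹, hcM⟩ *
        (⟨m', hm'⟩ : M)⁻¹) := by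
      apply Subtype.ext
      simp only [Subgroup.coe_mul, Subgroup.coe_inv]
      exact he
    have h6 := hinv ⟨m', hm'⟩ hcM
    rw [h5, jE_mul V M χ hχ, jE_mul V M χ hχ]
    have h7 : χ ⟨F ^ (k + 1) * m' * (F ^ (k + 1))⁻¹, hcM⟩ * χ (⟨m', hm'⟩ : M)⁻¹ = 1 := by
      rw [h6, ← jE_mul V M χ hχ, mul_inv_cancel, jE_one V M χ hχ]
    rw [h7, mul_one]
  have hJ : Finite {χ | jE V M χ ≠ ⊥} := hfin.to_subtype
  let t : M → ({χ | jE V M χ ≠ ⊥} → K) := fun m χ => χ.1 m
  have ht : (Set.range t).Finite := by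
    refine (Set.Finite.pi' fun χ : {χ | jE V M χ ≠ ⊥} => hrange χ.1 χ.2).subset ?_
    rintro _ ⟨m, rfl⟩ χ
    exact ⟨m, rfl⟩
  have hfac : Function.FactorsThrough (fun m : M => V.ρ m) t := by
    intro m m' hmm
    have hle : (⨆ χ, jE V M χ) ≤ LinearMap.eqLocus (V.ρ m) (V.ρ m') := by
      refine iSup_le fun χ => ?_
      intro v hv
      by_cases hχ : jE V M χ = ⊥
      · rw [hχ] at hv
        rw [(Submodule.mem_bot K).mp hv]
        exact Submodule.zero_mem _
      · rw [mem_jE] at hv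
        change V.ρ m v = V.ρ m' v
        rw [hv, hv]
        have := congrFun hmm ⟨χ, hχ⟩
        simp only [t] at this
        rw [this]
    rw [jE_sup V hV hfd M hM hab] at hle
    apply LinearMap.ext
    intro v
    exact hle (show v ∈ (⊤ : Submodule K V.V) from trivial)
  have h8 : (fun m : M => V.ρ m) = Function.extend t (fun m : M => V.ρ m) 0 ∘ t := by
    funext m
    exact (hfac.extend_apply 0 m).symm
  rw [h8, Set.range_comp]
  exact ht.image _

end

end Pool.Agent.N522.GO
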