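import Pool.Agent.N522.GO.Lin

namespace Pool.Agent.N522.GO

open TensorProduct

section
variable {K G H : Type} [Field K] [Group G] [Group H]

/-- restriction to a subrepresentation of the left factor, or to the quotient -/
theorem split (f : G →* H) (B V : Rep K G) (hV : Irr V) (A : Rep K H) (U : Submodule K A.V)
    (hU : Stable A U) (h : SqRel V (tensor (pull f A) B)) :
    SqRel V (tensor (pull f (sub A U hU)) B) ∨ SqRel V (tensor (pull f (quo A U hU)) B) := by
  obtain ⟨R, hR, hs, h0⟩ := h
  let R0 : Submodule K ((A.V ⊗[K] B.V) × V.V) := R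
  let ι : (sub A U hU).V →ₗ[K] A.V := U.subtype
  let κ : A.V →ₗ[K] (quo A U hU).V := U.mkQ
  let i : ((sub A U hU).V ⊗[K] B.V) →ₗ[K] (A.V ⊗[K] B.V) := TensorProduct.map ι LinearMap.id
  let q : (A.V ⊗[K] B.V) →ₗ[K] ((quo A U hU).V ⊗[K] B.V) := TensorProduct.map κ LinearMap.id
  have hi : ∀ (g : G) (t : (sub A U hU).V ⊗[K] B.V),
      i (TensorProduct.map ((sub A U hU).ρ (f g)) (B.ρ g) t) =
        TensorProduct.map (A.ρ (f g)) (B.ρ g) (i t) := by
    intro g t
    have h1 : i ∘ₗ TensorProduct.map ((sub A U hU).ρ (f g)) (B.ρ g) =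
        TensorProduct.map (A.ρ (f g)) (B.ρ g) ∘ₗ i := by
      apply TensorProduct.ext'
      intro x y
      rfl
    exact congrArg (fun z => z t) h1
  have hq : ∀ (g : G) (t : A.V ⊗[K] B.V),
      q (TensorProduct.map (A.ρ (f g)) (B.ρ g) t) =
        TensorProduct.map ((quo A U hU).ρ (f g)) (B.ρ g) (q t) := by
    intro g t
    have h1 : q ∘ₗ TensorProduct.map (A.ρ (f g)) (B.ρ g) =
        TensorProduct.map ((quo A U hU).ρ (f g)) (B.ρ g) ∘ₗ q := by
      apply TensorProduct.ext'
      intro x y
      rfl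
    exact congrArg (fun z => z t) h1
  have hex : Function.Exact i q :=
    rTensor_exact B.V (LinearMap.exact_subtype_mkQ U) (Submodule.mkQ_surjective U)
  let P : Submodule K V.V :=
    { carrier := {a | ∃ t : (sub A U hU).V ⊗[K] B.V, (i t, a) ∈ R0}
      add_mem' := by
        rintro x y ⟨t, ht⟩ ⟨t', ht'⟩
        exact ⟨t + t', by rw [map_add]; exact R0.add_mem ht ht'⟩
      zero_mem' := ⟨0, by rw [map_zero]; exact R0.zero_mem⟩
      smul_mem' := by
        rintro c x ⟨t, ht⟩
        exact ⟨c • t, by rw [map_smul]; exact R0.smul_mem c ht⟩ }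
  have hP : Stable V P := by
    rintro g v ⟨t, ht⟩
    exact ⟨TensorProduct.map ((sub A U hU).ρ (f g)) (B.ρ g) t, by
      rw [hi]; exact hR g _ _ ht⟩
  rcases hV.2 P hP with hP | hP
  · right
    refine ⟨Submodule.map (LinearMap.prodMap q LinearMap.id) R0, ?_, ?_, ?_⟩
    · rintro g b a ⟨⟨t, a'⟩, ht, hb⟩
      obtain ⟨rfl, rfl⟩ : q t = b ∧ a' = a := ⟨congrArg Prod.fst hb, congrArg Prod.snd hb⟩
      exact ⟨_, hR g t a' ht, Prod.ext (hq g t) rfl⟩
    · intro a
      obtain ⟨t, ht⟩ := hs a
      exact ⟨q t, (t, a), ht, rfl⟩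
    · rintro a ⟨⟨t, a'⟩, ht, hb⟩
      obtain ⟨h1, rfl⟩ : q t = 0 ∧ a' = a := ⟨congrArg Prod.fst hb, congrArg Prod.snd hb⟩
      obtain ⟨t', rfl⟩ := (hex t).mp h1
      have : a' ∈ P := ⟨t', ht⟩
      rw [hP] at this
      simpa using this
  · left
    refine ⟨Submodule.comap (LinearMap.prodMap i LinearMap.id) R0, ?_, ?_, ?_⟩
    · intro g b a hb
      have h2 := hR g _ _ (show (i b, a) ∈ R from hb)
      have h3 := hi g b
      change (i (TensorProduct.map ((sub A U hU).ρ (f g)) (B.ρ g) b), V.ρ g a) ∈ R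
      rw [h3]
      exact h2
    · intro a
      have : a ∈ P := by rw [hP]; trivial
      obtain ⟨t, ht⟩ := this
      exact ⟨t, ht⟩
    · intro a ha
      have ha' : (i 0, a) ∈ R0 := ha
      rw [map_zero] at ha'
      exact h0 a ha'

theorem jh_aux (f : G →* H) (B V : Rep K G) (hV : Irr V) (n : ℕ) :
    ∀ A : Rep K H, FiniteDimensional K A.V → Module.finrank K A.V = n →
      SqRel V (tensor (pull f A) B) →
      ∃ a : Rep K H, Irr a ∧ SqRel a A ∧ SqRel V (tensor (pull f a) B) := by
  induction n using Nat.strong_induction_on with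
  | _ n ih =>
    intro A hA hn h
    by_cases hI : Irr A
    · exact ⟨A, hI, SqRel.refl A, h⟩
    · have hnt : Nontrivial A.V := by
        by_contra hsub
        rw [not_nontrivial_iff_subsingleton] at hsub
        obtain ⟨R, hR, hs, h0⟩ := h
        have := hV.1
        obtain ⟨v, hv⟩ := exists_ne (0 : V.V)
        obtain ⟨t, ht⟩ := hs v
        have ht0 : t = 0 := by
          have : Subsingleton (A.V ⊗[K] B.V) := by
            refine ⟨fun x y => ?_⟩
            have hz : ∀ z : A.V ⊗[K] B.V, z = 0 := by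
              intro z
              induction z using TensorProduct.induction_on with
              | zero => rfl
              | tmul x y => rw [Subsingleton.elim x 0, zero_tmul]
              | add x y hx hy => rw [hx, hy, add_zero]
            rw [hz x, hz y]
          exact this.elim _ _
        rw [ht0] at ht
        exact hv (h0 v ht)
      have : ∃ U : Submodule K A.V, Stable A U ∧ U ≠ ⊥ ∧ U ≠ ⊤ := by
        by_contra hno
        push Not at hno
        apply hI
        refine ⟨hnt, fun U hU => ?_⟩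
        by_cases hb : U = ⊥
        · exact Or.inl hb
        · exact Or.inr (hno U hU hb)
      obtain ⟨U, hU, hb, ht⟩ := this
      rcases split f B V hV A U hU h with h1 | h1
      · have hlt : Module.finrank K U < n := hn ▸ Submodule.finrank_lt ht
        obtain ⟨a, ha, hs, hv⟩ := ih _ hlt (sub A U hU)
          (show FiniteDimensional K U from inferInstance) rfl h1
        exact ⟨a, ha, hs.trans (sub_sq A U hU), hv⟩
      · have hlt : Module.finrank K (A.V ⧸ U) < n := by
          have h2 := Submodule.finrank_quotient_add_finrank U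
          have h3 : 0 < Module.finrank K U := by
            rw [Module.finrank_pos_iff]
            exact (Submodule.nontrivial_iff_ne_bot).mpr hb
          omega
        obtain ⟨a, ha, hs, hv⟩ := ih _ hlt (quo A U hU)
          (show FiniteDimensional K (A.V ⧸ U) from inferInstance) rfl h1
        exact ⟨a, ha, hs.trans (quo_sq A U hU), hv⟩

theorem jh (f : G →* H) (B V : Rep K G) (hV : Irr V) (A : Rep K H)
    (hA : FiniteDimensional K A.V) (h : SqRel V (tensor (pull f A) B)) :
    ∃ a : Rep K H, Irr a ∧ SqRel a A ∧ SqRel V (tensor (pull f a) B) :=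
  jh_aux f B V hV _ A hA rfl h

/-- two-sided version -/
theorem jh2 {H' : Type} [Group H'] (f : G →* H) (f' : G →* H') (V : Rep K G) (hV : Irr V)
    (A : Rep K H) (hA : FiniteDimensional K A.V) (B : Rep K H') (hB : FiniteDimensional K B.V)
    (h : SqRel V (tensor (pull f A) (pull f' B))) :
    ∃ (a : Rep K H) (b : Rep K H'), Irr a ∧ Irr b ∧ SqRel a A ∧ SqRel b B ∧
      SqRel V (tensor (pull f a) (pull f' b)) := by
  obtain ⟨a, ha, hsa, h1⟩ := jh f _ V hV A hA h
  obtain ⟨b, hb, hsb, h2⟩ := jh f' _ V hV B hB h1.comm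
  exact ⟨a, b, ha, hb, hsa, hsb, h2.comm⟩

/-- a non-zero finite-dimensional representation has an irreducible subrepresentation -/
theorem exists_min (A : Rep K G) (n : ℕ) : ∀ U : Submodule K A.V, Stable A U → U ≠ ⊥ →
    FiniteDimensional K U → Module.finrank K U = n →
    ∃ U' : Submodule K A.V, Stable A U' ∧ U' ≤ U ∧ U' ≠ ⊥ ∧
      ∀ W : Submodule K A.V, Stable A W → W ≤ U' → W = ⊥ ∨ W = U' := by
  induction n using Nat.strong_induction_on with
  | _ n ih =>
    intro U hU hne hfd hn
    by_cases hm : ∀ W : Submodule K A.V, Stable A W → W ≤ U → W = ⊥ ∨ W = U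
    · exact ⟨U, hU, le_rfl, hne, hm⟩
    · push Not at hm
      obtain ⟨W, hW, hWU, hb, ht⟩ := hm
      have hlt : W < U := lt_of_le_of_ne hWU ht
      have hfdW : FiniteDimensional K W := Submodule.finiteDimensional_of_le hWU
      obtain ⟨U', h1, h2, h3, h4⟩ := ih _ (hn ▸ Submodule.finrank_lt_finrank_of_lt hlt) W hW hb
        hfdW rfl
      exact ⟨U', h1, h2.trans hWU, h3, h4⟩

theorem exists_irr_sub (A : Rep K G) (hA : FiniteDimensional K A.V) (hnt : Nontrivial A.V) :
    ∃ (U : Submodule K A.V) (hU : Stable A U), Irr (sub A U hU) := by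
  obtain ⟨U, hU, -, hne, hmin⟩ := exists_min A _ ⊤ (fun _ _ _ => trivial)
    (by rw [Ne, Submodule.eq_bot_iff]; intro h; obtain ⟨v, hv⟩ := exists_ne (0 : A.V)
        exact hv (h v trivial)) inferInstance rfl
  refine ⟨U, hU, (Submodule.nontrivial_iff_ne_bot).mpr hne, ?_⟩
  intro W hW
  let W' : Submodule K A.V := Submodule.map U.subtype W
  have hW' : Stable A W' := by
    rintro g v ⟨w, hw, rfl⟩
    exact ⟨(sub A U hU).ρ g w, hW g w hw, rfl⟩
  have hle : W' ≤ U := by
    rintro v ⟨w, hw, rfl⟩
    exact w.2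
  rcases hmin W' hW' hle with h | h
  · left
    rw [Submodule.eq_bot_iff]
    intro w hw
    have : U.subtype w ∈ W' := ⟨w, hw, rfl⟩
    rw [h] at this
    exact Subtype.ext ((Submodule.mem_bot K).mp this)
  · right
    rw [Submodule.eq_top_iff']
    intro w
    have : U.subtype w ∈ W' := by rw [h]; exact Subtype.property w
    obtain ⟨w', hw', he⟩ := this
    have : w' = w := Subtype.ext he
    rw [← this]; exact hw'

end

end Pool.Agent.N522.GO
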