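import Pool.Agent.N522.GO.JH

namespace Pool.Agent.N522.GO

open TensorProduct

section
variable {K G H : Type} [Field K] [Group G] [Group H]

/-! ### The representation of the quotient on `N`-equivariant homomorphisms -/

/-- homomorphisms commuting with the kernel of `π` -/
def homN (π : G →* H) (α V : Rep K G) : Submodule K (α.V →ₗ[K] V.V) where
  carrier := {x | ∀ n : G, π n = 1 → x ∘ₗ α.ρ n = V.ρ n ∘ₗ x}
  add_mem' := by
    intro x y hx hy n hn
    rw [LinearMap.add_comp, LinearMap.comp_add, hx n hn, hy n hn]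
  zero_mem' := by
    intro n hn
    rw [LinearMap.zero_comp, LinearMap.comp_zero]
  smul_mem' := by
    intro c x hx n hn
    rw [LinearMap.smul_comp, LinearMap.comp_smul, hx n hn]

theorem conj_mem (π : G →* H) (α V : Rep K G) (g : G) (x : α.V →ₗ[K] V.V)
    (hx : x ∈ homN π α V) : V.ρ g ∘ₗ x ∘ₗ α.ρ g⁻¹ ∈ homN π α V := by
  intro n hn
  have hn' : π (g⁻¹ * n * g) = 1 := by simp [hn]
  have h := hx _ hn'
  ext a
  have h1 := congrArg (fun z => V.ρ g (z (α.ρ g⁻¹ a))) h
  simp only [LinearMap.comp_apply] at h1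
  simp only [LinearMap.comp_apply]
  rw [← act_mul, ← act_mul] at h1
  rw [← act_mul, ← act_mul]
  have e1 : g⁻¹ * n * g * g⁻¹ = g⁻¹ * n := by group
  have e2 : g * (g⁻¹ * n * g) = n * g := by group
  rw [e1, e2] at h1
  exact h1

/-- conjugation by `g` -/
def cj (π : G →* H) (α V : Rep K G) (g : G) : homN π α V →ₗ[K] homN π α V where
  toFun x := ⟨V.ρ g ∘ₗ (x : α.V →ₗ[K] V.V) ∘ₗ α.ρ g⁻¹, conj_mem π α V g x x.2⟩
  map_add' x y := by
    apply Subtype.ext
    simp [LinearMap.add_comp, LinearMap.comp_add]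
  map_smul' c x := by
    apply Subtype.ext
    simp [LinearMap.smul_comp, LinearMap.comp_smul]

theorem cj_apply (π : G →* H) (α V : Rep K G) (g : G) (x : homN π α V) (a : α.V) :
    (cj π α V g x : α.V →ₗ[K] V.V) a = V.ρ g ((x : α.V →ₗ[K] V.V) (α.ρ g⁻¹ a)) := rfl

theorem cj_mul (π : G →* H) (α V : Rep K G) (g h : G) :
    cj π α V (g * h) = cj π α V g ∘ₗ cj π α V h := by
  apply LinearMap.ext; intro x
  apply Subtype.ext
  apply LinearMap.ext; intro a
  rw [LinearMap.comp_apply, cj_apply, cj_apply, cj_apply, mul_inv_rev, act_mul, act_mul]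

theorem cj_one (π : G →* H) (α V : Rep K G) (n : G) (hn : π n = 1) :
    cj π α V n = LinearMap.id := by
  apply LinearMap.ext; intro x
  apply Subtype.ext
  apply LinearMap.ext; intro a
  rw [cj_apply]
  have h := congrArg (fun z => z (α.ρ n⁻¹ a)) (x.2 n hn)
  simp only [LinearMap.comp_apply] at h
  rw [← h, act_act_inv]
  rfl

theorem cj_eq (π : G →* H) (α V : Rep K G) (g h : G) (hgh : π g = π h) :
    cj π α V g = cj π α V h := by
  have h1 : g = h * (h⁻¹ * g) := by group
  rw [h1, cj_mul, cj_one π α V (h⁻¹ * g) (by simp [hgh]), LinearMap.comp_id]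

/-- the representation of `H` -/
noncomputable def homRep (π : G →* H) (hπ : Function.Surjective π) (α V : Rep K G) :
    Rep K H where
  V := homN π α V
  ρ :=
    { toFun := fun q => cj π α V (Function.surjInv hπ q)
      map_one' := cj_one π α V _ (Function.surjInv_eq hπ 1)
      map_mul' := fun q q' => by
        refine Eq.trans (cj_eq π α V _
          (Function.surjInv hπ q * Function.surjInv hπ q') ?_) (cj_mul π α V _ _)
        rw [map_mul, Function.surjInv_eq hπ, Function.surjInv_eq hπ, Function.surjInv_eq hπ] }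

theorem homRep_act (π : G →* H) (hπ : Function.Surjective π) (α V : Rep K G) (g : G) :
    (homRep π hπ α V).ρ (π g) = cj π α V g :=
  cj_eq π α V _ g (Function.surjInv_eq hπ (π g))

theorem key (π : G →* H) (hπ : Function.Surjective π) (α V : Rep K G)
    (hs : ∀ v : V.V, ∃ x ∈ homN π α V, ∃ a : α.V, x a = v) :
    SqRel V (tensor (pull π (homRep π hπ α V)) α) := by
  let ev : (homN π α V ⊗[K] α.V) →ₗ[K] V.V := TensorProduct.lift (homN π α V).subtype
  refine SqRel.of_surj (A := V) (B := tensor (pull π (homRep π hπ α V)) α) ev ?_ ?_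
  · intro v
    obtain ⟨x, hx, a, rfl⟩ := hs v
    exact ⟨(⟨x, hx⟩ : homN π α V) ⊗ₜ[K] a, rfl⟩
  · intro g b
    change (homN π α V ⊗[K] α.V) at b
    have h1 : ev ∘ₗ TensorProduct.map (cj π α V g) (α.ρ g) = V.ρ g ∘ₗ ev := by
      apply TensorProduct.ext'
      intro x y
      change (cj π α V g x : α.V →ₗ[K] V.V) (α.ρ g y) = V.ρ g ((x : α.V →ₗ[K] V.V) y)
      rw [cj_apply, act_inv_act]
    have h2 := congrArg (fun z => z b) h1
    have h3 : (tensor (pull π (homRep π hπ α V)) α).ρ g =
        TensorProduct.map ((homRep π hπ α V).ρ (π g)) (α.ρ g) := rfl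
    rw [h3, homRep_act]
    exact h2

end

/-! ### Continuity -/

section
set_option linter.unusedSectionVars false
variable {K G H : Type} [Field K] [TopologicalSpace K] [IsTopologicalRing K]
  [Group G] [TopologicalSpace G] [Group H] [TopologicalSpace H]

theorem IsRep.sub {A B : Rep K G} (hB : IsRep B) (h : SqRel A B) : IsRep A := by
  obtain ⟨U, p, hU, hp, he⟩ := of_sqRel A B h
  have := hB.1
  refine ⟨Module.Finite.of_surjective p (fun a => ?_), ?_⟩
  · obtain ⟨u, -, rfl⟩ := hp a
    exact ⟨u, rfl⟩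
  intro φ v
  obtain ⟨u, hu, rfl⟩ := hp v
  refine (hB.2 (φ ∘ₗ p) u).congr fun g => ?_
  exact congrArg φ (he g u hu)

theorem IsRep.pull {A : Rep K H} (hA : IsRep A) (f : G →* H) (hf : Continuous f) :
    IsRep (pull f A) :=
  ⟨hA.1, fun φ v => (hA.2 φ v).comp hf⟩

theorem chr_cont (d : G →* Multiplicative ℤ) (hd : Continuous d) (c : Kˣ) :
    Continuous fun g => ((chr d c g : Kˣ) : K) := by
  have h1 : (fun g => ((chr d c g : Kˣ) : K)) =
      (fun z : Multiplicative ℤ => ((zpowersHom Kˣ c z : Kˣ) : K)) ∘ d := rfl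
  rw [h1]
  exact continuous_of_discreteTopology.comp hd

theorem IsRep.twist {A : Rep K G} (hA : IsRep A) (d : G →* Multiplicative ℤ)
    (hd : Continuous d) (c : Kˣ) : IsRep (twist d c A) := by
  refine ⟨hA.1, ?_⟩
  intro φ v
  change Module.Dual K A.V at φ
  change A.V at v
  refine ((chr_cont d hd c).mul (hA.2 φ v)).congr fun g => ?_
  change _ = φ (((chr d c g : Kˣ) : K) • A.ρ g v)
  rw [map_smul, smul_eq_mul]
  rfl

theorem cont_hom [ContinuousInv G] (α V : Rep K G) (hα : IsRep α) (hV : IsRep V)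
    (Φ : Module.Dual K (α.V →ₗ[K] V.V)) (x : α.V →ₗ[K] V.V) :
    Continuous fun g => Φ (V.ρ g ∘ₗ x ∘ₗ α.ρ g⁻¹) := by
  classical
  have := hα.1
  have := hV.1
  let b := Module.finBasis K α.V
  let e := Module.finBasis K V.V
  have hΦ : ∀ y : α.V →ₗ[K] V.V, Φ y = ∑ i, ∑ j, e.coord i (y (b j)) *
      Φ (Matrix.toLin b e (Matrix.single i j 1)) := by
    intro y
    have h1 : y = Matrix.toLin b e (LinearMap.toMatrix b e y) := (Matrix.toLin_toMatrix b e y).symm
    conv_lhs => rw [h1, Matrix.matrix_eq_sum_single (LinearMap.toMatrix b e y)]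
    rw [map_sum, map_sum]
    refine Finset.sum_congr rfl fun i _ => ?_
    rw [map_sum, map_sum]
    refine Finset.sum_congr rfl fun j _ => ?_
    have h2 : Matrix.single i j (LinearMap.toMatrix b e y i j) =
        (LinearMap.toMatrix b e y i j) • Matrix.single i j (1 : K) := by
      rw [Matrix.smul_single, smul_eq_mul, mul_one]
    rw [h2, map_smul, map_smul, smul_eq_mul, LinearMap.toMatrix_apply]
    rfl
  have h3 : (fun g => Φ (V.ρ g ∘ₗ x ∘ₗ α.ρ g⁻¹)) = fun g => ∑ i, ∑ j,
      (∑ k, b.coord k (α.ρ g⁻¹ (b j)) * e.coord i (V.ρ g (x (b k)))) *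
        Φ (Matrix.toLin b e (Matrix.single i j 1)) := by
    funext g
    rw [hΦ]
    refine Finset.sum_congr rfl fun i _ => ?_
    refine Finset.sum_congr rfl fun j _ => ?_
    congr 1
    simp only [LinearMap.comp_apply]
    have h4 : α.ρ g⁻¹ (b j) = ∑ k, b.coord k (α.ρ g⁻¹ (b j)) • b k := by
      conv_lhs => rw [← b.sum_repr (α.ρ g⁻¹ (b j))]
      rfl
    conv_lhs => rw [h4]
    rw [map_sum, map_sum, map_sum]
    refine Finset.sum_congr rfl fun k _ => ?_
    rw [map_smul, map_smul, map_smul, smul_eq_mul]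
  rw [h3]
  refine continuous_finsetSum _ fun i _ => continuous_finsetSum _ fun j _ => ?_
  refine Continuous.mul ?_ continuous_const
  refine continuous_finsetSum _ fun k _ => Continuous.mul ?_ (hV.2 _ _)
  exact (hα.2 (b.coord k) (b j)).comp continuous_inv

theorem homRep_isRep [ContinuousInv G] (π : G →* H) (hπ : Function.Surjective π)
    (hq : Topology.IsQuotientMap π) (α V : Rep K G) (hα : IsRep α) (hV : IsRep V) :
    IsRep (homRep π hπ α V) := by
  have := hα.1
  have := hV.1
  refine ⟨show FiniteDimensional K (homN π α V) from inferInstance, ?_⟩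
  intro φ v
  change homN π α V at v
  rw [hq.continuous_iff]
  obtain ⟨Φ, hΦ⟩ := LinearMap.exists_extend (p := homN π α V) φ
  have h1 : (fun q => φ ((homRep π hπ α V).ρ q v)) ∘ π =
      fun g => Φ (V.ρ g ∘ₗ (v : α.V →ₗ[K] V.V) ∘ₗ α.ρ g⁻¹) := by
    funext g
    rw [Function.comp_apply, homRep_act]
    have := congrArg (fun z => z (cj π α V g v)) hΦ
    exact this.symm
  rw [h1]
  exact cont_hom α V hα hV Φ _

end

end Pool.Agent.N522.GO
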