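import Pool.Agent.N522.GO.Defs

namespace Pool.Agent.N522.GO

open TensorProduct

section
variable {K G H : Type} [Field K] [Group G] [Group H]

theorem act_inv_act (A : Rep K G) (g : G) (v : A.V) : A.ρ g⁻¹ (A.ρ g v) = v := by
  rw [← Module.End.mul_apply, ← map_mul]; simp

theorem act_act_inv (A : Rep K G) (g : G) (v : A.V) : A.ρ g (A.ρ g⁻¹ v) = v := by
  rw [← Module.End.mul_apply, ← map_mul]; simp

theorem act_mul (A : Rep K G) (g h : G) (v : A.V) : A.ρ (g * h) v = A.ρ g (A.ρ h v) := by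
  rw [map_mul, Module.End.mul_apply]

/-! ### Linear relations -/

/-- subquotients through linear relations -/
def SqRel (A B : Rep K G) : Prop :=
  ∃ R : Submodule K (B.V × A.V),
    (∀ (g : G) (b : B.V) (a : A.V), (b, a) ∈ R → (B.ρ g b, A.ρ g a) ∈ R) ∧
    (∀ a : A.V, ∃ b : B.V, (b, a) ∈ R) ∧ (∀ a : A.V, ((0 : B.V), a) ∈ R → a = 0)

theorem sqRel_of (A B : Rep K G) (h : IsSubquot A B) : SqRel A B := by
  obtain ⟨U, p, hU, hp, he⟩ := h
  refine ⟨LinearMap.range (U.subtype.prod (p ∘ₗ U.subtype)), ?_, ?_, ?_⟩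
  · rintro g b a ⟨u, hu⟩
    obtain ⟨rfl, rfl⟩ : (u : B.V) = b ∧ p u = a := ⟨congrArg Prod.fst hu, congrArg Prod.snd hu⟩
    exact ⟨⟨B.ρ g u, hU g u u.2⟩, Prod.ext rfl (he g u u.2)⟩
  · intro a
    obtain ⟨u, hu, rfl⟩ := hp a
    exact ⟨u, ⟨u, hu⟩, rfl⟩
  · rintro a ⟨u, hu⟩
    obtain ⟨h1, rfl⟩ : (u : B.V) = 0 ∧ p u = a := ⟨congrArg Prod.fst hu, congrArg Prod.snd hu⟩
    rw [h1, map_zero]

theorem of_sqRel (A B : Rep K G) (h : SqRel A B) : IsSubquot A B := by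
  obtain ⟨R, hR, hs, h0⟩ := h
  have h0' : ∀ x ∈ R, x.fst = 0 → x.snd = 0 := by
    rintro ⟨b, a⟩ hx hb
    simp only at hb
    subst hb
    exact h0 a hx
  have hdom : ∀ (b : B.V) (a : A.V), (b, a) ∈ R → b ∈ R.toLinearPMap.domain := by
    intro b a h
    exact ⟨(b, a), h, rfl⟩
  obtain ⟨p, hp⟩ := LinearMap.exists_extend R.toLinearPMap.toFun
  have key : ∀ (b : B.V) (a : A.V), (b, a) ∈ R → p b = a := by
    intro b a hu
    have h1 : (b, R.toLinearPMap ⟨b, hdom b a hu⟩) ∈ R.toLinearPMap.graph :=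
      LinearPMap.mem_graph _ ⟨b, hdom b a hu⟩
    rw [Submodule.toLinearPMap_graph_eq _ h0'] at h1
    have h2 := R.sub_mem h1 hu
    have h3 := h0' _ h2 (by simp)
    have h4 : R.toLinearPMap ⟨b, hdom b a hu⟩ = a := by simpa [sub_eq_zero] using h3
    have h5 : p b = R.toLinearPMap ⟨b, hdom b a hu⟩ :=
      congrArg (fun z => z ⟨b, hdom b a hu⟩) hp
    rw [h5, h4]
  have hmem : ∀ u ∈ R.toLinearPMap.domain, (u, p u) ∈ R := by
    rintro u ⟨⟨b, a⟩, hx, rfl⟩
    have := key b a hx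
    change (b, p b) ∈ R
    rw [this]
    exact hx
  have hU : Stable B R.toLinearPMap.domain := by
    intro g v hv
    exact hdom _ _ (hR g v _ (hmem v hv))
  refine ⟨R.toLinearPMap.domain, p, hU, ?_, ?_⟩
  · intro a
    obtain ⟨b, hb⟩ := hs a
    exact ⟨b, hdom b a hb, key b a hb⟩
  · intro g u hu
    exact key _ _ (hR g u _ (hmem u hu))

theorem sqRel_iff (A B : Rep K G) : IsSubquot A B ↔ SqRel A B :=
  ⟨sqRel_of A B, of_sqRel A B⟩

theorem SqRel.refl (A : Rep K G) : SqRel A A := by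
  refine ⟨LinearMap.range (LinearMap.id.prod LinearMap.id), ?_, ?_, ?_⟩
  · rintro g b a ⟨u, hu⟩
    obtain ⟨rfl, rfl⟩ : u = b ∧ u = a := ⟨congrArg Prod.fst hu, congrArg Prod.snd hu⟩
    exact ⟨A.ρ g u, rfl⟩
  · intro a
    exact ⟨a, a, rfl⟩
  · rintro a ⟨u, hu⟩
    obtain ⟨h1, h2⟩ : u = 0 ∧ u = a := ⟨congrArg Prod.fst hu, congrArg Prod.snd hu⟩
    rw [← h2, h1]

theorem SqRel.trans {A B C : Rep K G} (h1 : SqRel A B) (h2 : SqRel B C) : SqRel A C := by
  obtain ⟨R, hR, hs, h0⟩ := h1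
  obtain ⟨S, hS, hs', h0'⟩ := h2
  let T : Submodule K (C.V × A.V) :=
    { carrier := {x | ∃ b : B.V, (x.1, b) ∈ S ∧ (b, x.2) ∈ R}
      add_mem' := by
        rintro x y ⟨b, hb1, hb2⟩ ⟨b', hb1', hb2'⟩
        exact ⟨b + b', S.add_mem hb1 hb1', R.add_mem hb2 hb2'⟩
      zero_mem' := ⟨0, S.zero_mem, R.zero_mem⟩
      smul_mem' := by
        rintro c x ⟨b, hb1, hb2⟩
        exact ⟨c • b, S.smul_mem c hb1, R.smul_mem c hb2⟩ }
  refine ⟨T, ?_, ?_, ?_⟩
  · rintro g c a ⟨b, hb1, hb2⟩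
    exact ⟨B.ρ g b, hS g c b hb1, hR g b a hb2⟩
  · intro a
    obtain ⟨b, hb⟩ := hs a
    obtain ⟨c, hc⟩ := hs' b
    exact ⟨c, b, hc, hb⟩
  · rintro a ⟨b, hb1, hb2⟩
    have : b = 0 := h0' b hb1
    subst this
    exact h0 a hb2

/-- equivariant surjection -/
theorem SqRel.of_surj {A B : Rep K G} (f : B.V →ₗ[K] A.V) (hf : Function.Surjective f)
    (he : ∀ g b, f (B.ρ g b) = A.ρ g (f b)) : SqRel A B := by
  refine ⟨LinearMap.range (LinearMap.id.prod f), ?_, ?_, ?_⟩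
  · rintro g b a ⟨u, hu⟩
    obtain ⟨rfl, rfl⟩ : u = b ∧ f u = a := ⟨congrArg Prod.fst hu, congrArg Prod.snd hu⟩
    exact ⟨B.ρ g u, Prod.ext rfl (he g u)⟩
  · intro a
    obtain ⟨b, rfl⟩ := hf a
    exact ⟨b, b, rfl⟩
  · rintro a ⟨u, hu⟩
    obtain ⟨h1, h2⟩ : u = 0 ∧ f u = a := ⟨congrArg Prod.fst hu, congrArg Prod.snd hu⟩
    rw [← h2, h1, map_zero]

/-- equivariant injection -/
theorem SqRel.of_inj {A B : Rep K G} (f : A.V →ₗ[K] B.V) (hf : Function.Injective f)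
    (he : ∀ g a, f (A.ρ g a) = B.ρ g (f a)) : SqRel A B := by
  refine ⟨LinearMap.range (f.prod LinearMap.id), ?_, ?_, ?_⟩
  · rintro g b a ⟨u, hu⟩
    obtain ⟨rfl, rfl⟩ : f u = b ∧ u = a := ⟨congrArg Prod.fst hu, congrArg Prod.snd hu⟩
    exact ⟨A.ρ g u, Prod.ext (he g u) rfl⟩
  · intro a
    exact ⟨f a, a, rfl⟩
  · rintro a ⟨u, hu⟩
    obtain ⟨h1, rfl⟩ : f u = 0 ∧ u = a := ⟨congrArg Prod.fst hu, congrArg Prod.snd hu⟩
    exact hf (by rw [h1, map_zero])

/-- pulling back a relation -/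
theorem SqRel.pull {A B : Rep K H} (f : G →* H) (h : SqRel A B) : SqRel (pull f A) (pull f B) := by
  obtain ⟨R, hR, hs, h0⟩ := h
  exact ⟨R, fun g b a hb => hR (f g) b a hb, hs, h0⟩

theorem SqRel.twist {A B : Rep K G} (d : G →* Multiplicative ℤ) (c : Kˣ) (h : SqRel A B) :
    SqRel (twist d c A) (twist d c B) := by
  obtain ⟨R, hR, hs, h0⟩ := h
  refine ⟨R, ?_, hs, h0⟩
  intro g b a hb
  exact R.smul_mem _ (hR g b a hb)

/-! ### Sub and quotient representations -/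

/-- the subrepresentation -/
def sub (A : Rep K G) (U : Submodule K A.V) (hU : Stable A U) : Rep K G where
  V := U
  ρ :=
    { toFun := fun g => (A.ρ g).restrict (fun v hv => hU g v hv)
      map_one' := by ext v; simp
      map_mul' := fun g h => by ext v; simp }

/-- the quotient representation -/
def quo (A : Rep K G) (U : Submodule K A.V) (hU : Stable A U) : Rep K G where
  V := A.V ⧸ U
  ρ :=
    { toFun := fun g => U.mapQ U (A.ρ g) (fun v hv => hU g v hv)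
      map_one' := by
        apply Submodule.linearMap_qext
        ext v; simp
      map_mul' := fun g h => by
        apply Submodule.linearMap_qext
        ext v; simp }

theorem sub_sq (A : Rep K G) (U : Submodule K A.V) (hU : Stable A U) : SqRel (sub A U hU) A :=
  SqRel.of_inj (A := sub A U hU) U.subtype (Submodule.subtype_injective U) (fun _ _ => rfl)

theorem quo_sq (A : Rep K G) (U : Submodule K A.V) (hU : Stable A U) : SqRel (quo A U hU) A :=
  SqRel.of_surj (A := quo A U hU) U.mkQ (Submodule.mkQ_surjective U) (fun _ _ => rfl)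

/-- tensor products are symmetric -/
theorem SqRel.comm {V A B : Rep K G} (h : SqRel V (tensor A B)) : SqRel V (tensor B A) := by
  refine h.trans ?_
  refine SqRel.of_surj (A := tensor A B) (B := tensor B A)
    (TensorProduct.comm K B.V A.V).toLinearMap (TensorProduct.comm K B.V A.V).surjective ?_
  intro g b
  change (TensorProduct.comm K B.V A.V) (TensorProduct.map (B.ρ g) (A.ρ g) b) =
    TensorProduct.map (A.ρ g) (B.ρ g) ((TensorProduct.comm K B.V A.V) b)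
  exact (TensorProduct.map_comm (A.ρ g) (B.ρ g) b).symm

end

end Pool.Agent.N522.GO
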