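import Pool.Agent.N522.GO.Fin

namespace Pool.Agent.N522.GO

open TensorProduct

set_option linter.unusedSectionVars false

/-! ### Twists -/

section
variable {K G H : Type} [Field K] [Group G] [Group H]

theorem twist_act (d : G →* Multiplicative ℤ) (c : Kˣ) (A : Rep K G) (g : G) (v : A.V) :
    (twist d c A).ρ g v = ((chr d c g : Kˣ) : K) • A.ρ g v := rfl

theorem Irr.twist {A : Rep K G} (hA : Irr A) (d : G →* Multiplicative ℤ) (c : Kˣ) :
    Irr (twist d c A) := by
  refine ⟨hA.1, fun U hU => hA.2 U ?_⟩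
  let U0 : Submodule K A.V := U
  intro g v hv
  have h1 : ((chr d c g : Kˣ) : K) • A.ρ g v ∈ U0 := hU g v hv
  have h2 : ((chr d c g)⁻¹ : Kˣ).1 • (((chr d c g : Kˣ) : K) • A.ρ g v) ∈ U0 :=
    U0.smul_mem _ h1
  have h3 : ((chr d c g)⁻¹ : Kˣ).1 * ((chr d c g : Kˣ) : K) = 1 := by
    rw [← Units.val_mul, inv_mul_cancel, Units.val_one]
  rw [smul_smul, h3, one_smul] at h2
  exact h2

theorem twist_back_ρ (d : G →* Multiplicative ℤ) (c : Kˣ) (A : Rep K G) (g : G) :
    (twist d c⁻¹ (twist d c A)).ρ g = A.ρ g := by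
  apply LinearMap.ext
  intro v
  change ((chr d c⁻¹ g : Kˣ) : K) • (((chr d c g : Kˣ) : K) • A.ρ g v) = A.ρ g v
  rw [smul_smul, ← Units.val_mul]
  have h : chr d c⁻¹ g * chr d c g = 1 := by
    unfold chr
    rw [MonoidHom.comp_apply, MonoidHom.comp_apply, zpowersHom_apply, zpowersHom_apply,
      inv_zpow, inv_mul_cancel]
  rw [h, Units.val_one, one_smul]

theorem finiteDet_back (d : G →* Multiplicative ℤ) (c : Kˣ) (A : Rep K G) (h : FiniteDet A) :
    FiniteDet (twist d c⁻¹ (twist d c A)) := by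
  obtain ⟨n, hn, h⟩ := h
  refine ⟨n, hn, fun g => ?_⟩
  rw [twist_back_ρ]
  exact h g

theorem sq_back (d : G →* Multiplicative ℤ) (c : Kˣ) (A : Rep K G) :
    SqRel A (twist d c⁻¹ (twist d c A)) := by
  refine SqRel.of_surj (A := A) (B := twist d c⁻¹ (twist d c A))
    (LinearMap.id : A.V →ₗ[K] A.V) Function.surjective_id ?_
  intro g b
  have h := congrArg (fun z => z b) (twist_back_ρ d c A g)
  exact h

theorem chr_comp (d : G →* Multiplicative ℤ) (d' : H →* Multiplicative ℤ) (c : Kˣ)
    (f : G →* H) (h : ∀ g, d' (f g) = d g) (g : G) : chr d' c (f g) = chr d c g := by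
  unfold chr
  rw [MonoidHom.comp_apply, MonoidHom.comp_apply, h]

/-- comparing the twist of a tensor product with the tensor product of the twists -/
theorem sq_twist_tensor {H' : Type} [Group H'] (d : G →* Multiplicative ℤ)
    (d1 : H →* Multiplicative ℤ) (d2 : H' →* Multiplicative ℤ) (f : G →* H) (f' : G →* H')
    (h1 : ∀ g, d1 (f g) = d g) (h2 : ∀ g, d2 (f' g) = d g) (c1 c2 : Kˣ) (V : Rep K G)
    (a : Rep K H) (b : Rep K H') (h : SqRel V (tensor (pull f a) (pull f' b))) :
    SqRel (twist d (c1 * c2) V)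
      (tensor (pull f (twist d1 c1 a)) (pull f' (twist d2 c2 b))) := by
  refine (h.twist d (c1 * c2)).trans ?_
  refine SqRel.of_surj (A := twist d (c1 * c2) (tensor (pull f a) (pull f' b)))
    (B := tensor (pull f (twist d1 c1 a)) (pull f' (twist d2 c2 b)))
    (LinearMap.id : (a.V ⊗[K] b.V) →ₗ[K] (a.V ⊗[K] b.V)) Function.surjective_id ?_
  intro g x
  have h3 : TensorProduct.map (((chr d1 c1 (f g) : Kˣ) : K) • a.ρ (f g))
      (((chr d2 c2 (f' g) : Kˣ) : K) • b.ρ (f' g)) =
      ((chr d (c1 * c2) g : Kˣ) : K) • TensorProduct.map (a.ρ (f g)) (b.ρ (f' g)) := by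
    rw [TensorProduct.map_smul_left, TensorProduct.map_smul_right, smul_smul,
      chr_comp d d1 c1 f h1, chr_comp d d2 c2 f' h2, ← Units.val_mul]
    congr 2
    unfold chr
    simp only [MonoidHom.comp_apply, zpowersHom_apply, mul_zpow]
  exact congrArg (fun z => z x) h3

/-- comparing twists and pull-backs along a homomorphism multiplying degrees by `m` -/
theorem sq_twist_pull (d : G →* Multiplicative ℤ) (d' : H →* Multiplicative ℤ) (m : ℕ)
    (f : G →* H) (hf : ∀ g, d' (f g) = d g ^ m) (c c' : Kˣ) (hc : c' ^ m = c) (B : Rep K G)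
    (A : Rep K H) (h : SqRel B (pull f A)) :
    SqRel (twist d c B) (pull f (twist d' c' A)) := by
  refine (h.twist d c).trans ?_
  refine SqRel.of_surj (A := twist d c (pull f A)) (B := pull f (twist d' c' A))
    (LinearMap.id : A.V →ₗ[K] A.V) Function.surjective_id ?_
  intro g x
  change ((chr d' c' (f g) : Kˣ) : K) • A.ρ (f g) x = ((chr d c g : Kˣ) : K) • A.ρ (f g) x
  have : chr d' c' (f g) = chr d c g := by
    unfold chr
    rw [MonoidHom.comp_apply, MonoidHom.comp_apply, hf, zpowersHom_apply, zpowersHom_apply,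
      toAdd_pow, ← hc, ← zpow_natCast, ← zpow_mul, nsmul_eq_mul]
  rw [this]

end

/-! ### Permutation representations -/

section
variable {K G : Type} [Field K] [Group G]

/-- functions on `G ⧸ N` -/
noncomputable def perm (K : Type) [Field K] {G : Type} [Group G] (N : Subgroup G) : Rep K G where
  V := (G ⧸ N) →₀ K
  ρ :=
    { toFun := fun g => Finsupp.lmapDomain K K (fun γ : G ⧸ N => g • γ)
      map_one' := by
        apply Finsupp.lhom_ext
        intro a b
        simp
      map_mul' := fun g h => by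
        apply Finsupp.lhom_ext
        intro a b
        simp [mul_smul] }

theorem perm_act (N : Subgroup G) (g : G) (γ : G ⧸ N) (b : K) :
    (perm K N).ρ g (Finsupp.single γ b) = Finsupp.single (g • γ) b := by
  change Finsupp.lmapDomain K K (fun γ : G ⧸ N => g • γ) (Finsupp.single γ b) = _
  simp

theorem perm_eq (N : Subgroup G) (hN : N.Normal) (g h : G) (hgh : g⁻¹ * h ∈ N) :
    (perm K N).ρ g = (perm K N).ρ h := by
  apply Finsupp.lhom_ext
  intro γ b
  have h1 : g • γ = h • γ := by
    induction γ using QuotientGroup.induction_on with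
    | H z =>
      change ((g * z : G) : G ⧸ N) = ((h * z : G) : G ⧸ N)
      rw [QuotientGroup.eq]
      have : (g * z)⁻¹ * (h * z) = z⁻¹ * (g⁻¹ * h) * z := by group
      rw [this]
      have := hN.conj_mem _ hgh z⁻¹
      simpa using this
  have e1 := perm_act (K := K) N g γ b
  have e2 := perm_act (K := K) N h γ b
  rw [h1] at e1
  exact e1.trans e2.symm

theorem perm_finite (N : Subgroup G) (hN : N.Normal) (hf : N.FiniteIndex) :
    (Set.range (perm K N).ρ).Finite := by
  have : Finite (G ⧸ N) := inferInstance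
  let s : G ⧸ N → G := Quotient.out
  have h1 : (Set.range fun γ : G ⧸ N => (perm K N).ρ (s γ)).Finite := Set.finite_range _
  refine h1.subset ?_
  rintro _ ⟨g, rfl⟩
  refine ⟨(g : G ⧸ N), ?_⟩
  refine perm_eq N hN _ _ ?_
  rw [← QuotientGroup.eq]
  exact Quotient.out_eq' _

theorem perm_isRep [TopologicalSpace K] [TopologicalSpace G] [IsTopologicalGroup G]
    (N : Subgroup G) (hN : N.Normal) (hf : N.FiniteIndex) (ho : IsOpen (N : Set G)) :
    IsRep (perm K N) := by
  have : Finite (G ⧸ N) := inferInstance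
  refine ⟨show FiniteDimensional K ((G ⧸ N) →₀ K) from inferInstance, ?_⟩
  intro φ v
  apply IsLocallyConstant.continuous
  rw [IsLocallyConstant.iff_exists_open]
  intro g
  refine ⟨(fun h => g⁻¹ * h) ⁻¹' (N : Set G), ho.preimage (continuous_const.mul continuous_id),
    ?_, ?_⟩
  · change g⁻¹ * g ∈ N
    rw [inv_mul_cancel]; exact N.one_mem
  · intro h hh
    have h1 := perm_eq (K := K) N hN g h hh
    exact congrArg (fun z => φ (z v)) h1.symm

end

end Pool.Agent.N522.GO
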