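import Pool.Agent.N522.GO.Main

namespace Pool.Agent.N522.GO

open TensorProduct

set_option linter.unusedSectionVars false

section
variable {K : Type} [Field K] [TopologicalSpace K] [IsTopologicalRing K]

/-- removing a twist -/
theorem geo_untwist (T : Data K) (hT : Facts T) (X : T.Obj) (A : Rep K (T.W X)) (hA : IsRep A)
    (hI : Irr A) (hd : FiniteDet A) (c : Kˣ) (h : T.Geo X (twist (T.deg X) c A)) :
    T.Geo X A := by
  have h1 := hT.geo.twist X (twist (T.deg X) c A) c⁻¹
    (hA.twist _ (hT.weil.deg_cont X) c) (hI.twist _ c) h (finiteDet_back _ c A hd)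
  exact hT.geo.sub X _ _ (of_sqRel _ _ (sq_back _ c A)) h1

/-- an irreducible continuous representation becomes geometric after a twist -/
theorem geo_some (T : Data K) (hT : Facts T) (X : T.Obj) (hX : Good T X)
    (A : Rep K (T.W X)) (hA : IsRep A) (hI : Irr A) :
    ∃ c : Kˣ, T.Geo X (twist (T.deg X) c A) := by
  obtain ⟨c, hc⟩ := hT.geo.untwist X A hA hI
  exact ⟨c, hX _ (hA.twist _ (hT.weil.deg_cont X) c) (hI.twist _ c) hc⟩

/-! ### Domination -/

theorem good_dom [IsAlgClosed K] (T : Data K) (hT : Facts T) (Y X : T.Obj) (h : T.Dom Y X)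
    (hY : Good T Y) : Good T X := by
  intro A hA hI hd
  obtain ⟨m, f, hf⟩ := hT.dom Y X h
  have hfd : FiniteDimensional K (pull f A).V := hA.1
  have hnt : Nontrivial (pull f A).V := hI.1
  obtain ⟨U, hU, hτ⟩ := exists_irr_sub (pull f A) hfd hnt
  have hsq := sub_sq (pull f A) U hU
  have hτr : IsRep (sub (pull f A) U hU) := (hA.pull f hf.cont).sub hsq
  obtain ⟨c, hc⟩ := geo_some T hT Y hY _ hτr hτ
  obtain ⟨z, hz⟩ := IsAlgClosed.exists_pow_nat_eq (c : K) hf.pos
  have hz0 : z ≠ 0 := by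
    rintro rfl
    rw [zero_pow hf.pos.ne'] at hz
    exact c.ne_zero hz.symm
  have hz' : (Units.mk0 z hz0) ^ m = c := by
    apply Units.ext
    rw [Units.val_pow_eq_pow_val, Units.val_mk0, hz]
  have h1 := sq_twist_pull (T.deg Y) (T.deg X) m f hf.deg c (Units.mk0 z hz0) hz' _ A hsq
  refine geo_untwist T hT X A hA hI hd (Units.mk0 z hz0) ?_
  exact hf.descent _ _ (hA.twist _ (hT.weil.deg_cont X) _) (hI.twist _ _) (hτ.twist _ c)
    (of_sqRel _ _ h1) hc

/-! ### Products -/

theorem good_prod (T : Data K) (hT : Facts T) (X Y : T.Obj)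
    (h : T.Kun X Y) (hX : Good T X) (hY : Good T Y) : Good T (T.prod X Y) := by
  intro A hA hI hd
  have hk := hT.kun X Y h
  have hex : ∀ (a : T.W X) (b : T.W Y), T.deg X a = T.deg Y b →
      ∃ w, T.fst X Y w = a ∧ T.snd X Y w = b := by
    intro a b hab
    obtain ⟨w, hw⟩ := hk.ex a b hab
    exact ⟨w, congrArg Prod.fst hw, congrArg Prod.snd hw⟩
  have huniq : ∀ w w', T.fst X Y w = T.fst X Y w' → T.snd X Y w = T.snd X Y w' → w = w' :=
    fun w w' h1 h2 => hk.inj (Prod.ext h1 h2)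
  have hdf : ∀ w, T.deg X (T.fst X Y w) = T.deg (T.prod X Y) w := hk.deg_fst
  have hds : ∀ w, T.deg Y (T.snd X Y w) = T.deg (T.prod X Y) w := hk.deg_snd
  have := hT.weil.topgrp X
  have := hT.weil.topgrp Y
  have := hT.weil.topgrp (T.prod X Y)
  obtain ⟨F1, hF1⟩ := hT.weil.deg_surj X (Multiplicative.ofAdd 1)
  obtain ⟨F2, hF2⟩ := hT.weil.deg_surj Y (Multiplicative.ofAdd 1)
  -- the section from `W Y`
  have hz1 : ∀ z : Multiplicative ℤ, T.deg X (zpowersHom (T.W X) F1 z) = z := by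
    intro z
    rw [zpowersHom_apply, map_zpow, hF1, ← ofAdd_zsmul, smul_eq_mul, mul_one, ofAdd_toAdd]
  have hz2 : ∀ z : Multiplicative ℤ, T.deg Y (zpowersHom (T.W Y) F2 z) = z := by
    intro z
    rw [zpowersHom_apply, map_zpow, hF2, ← ofAdd_zsmul, smul_eq_mul, mul_one, ofAdd_toAdd]
  have e2 : ∀ b : T.W Y, ∃ w, T.fst X Y w = zpowersHom (T.W X) F1 (T.deg Y b) ∧
      T.snd X Y w = b := fun b => hex _ _ (hz1 _)
  choose s2 hs2a hs2b using e2
  let σ2 : T.W Y →* T.W (T.prod X Y) :=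
    { toFun := s2
      map_one' := huniq _ _ (by rw [hs2a, map_one, map_one, map_one]) (by rw [hs2b, map_one])
      map_mul' := fun a b => huniq _ _
        (by rw [map_mul, hs2a, hs2a, hs2a, map_mul, map_mul])
        (by rw [map_mul, hs2b, hs2b, hs2b]) }
  have hσ2 : Continuous σ2 := by
    rw [hk.ind.continuous_iff]
    have : (pr T X Y ∘ σ2) =
        fun b => (zpowersHom (T.W X) F1 (T.deg Y b), b) := by
      funext b
      exact Prod.ext (hs2a b) (hs2b b)
    rw [this]
    refine Continuous.prodMk ?_ continuous_id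
    exact continuous_of_discreteTopology.comp (hT.weil.deg_cont Y)
  have hfs := continuous_fst.comp hk.ind.continuous
  have hsn := continuous_snd.comp hk.ind.continuous
  have hfst : Continuous (T.fst X Y) := hfs
  have hsnd : Continuous (T.snd X Y) := hsn
  -- `fst` is a quotient map
  have e1 : ∀ a : T.W X, ∃ w, T.fst X Y w = a ∧
      T.snd X Y w = zpowersHom (T.W Y) F2 (T.deg X a) := fun a => hex _ _ (hz2 _).symm
  choose s1 hs1a hs1b using e1
  have hs1 : Continuous s1 := by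
    rw [hk.ind.continuous_iff]
    have : (pr T X Y ∘ s1) =
        fun a => (a, zpowersHom (T.W Y) F2 (T.deg X a)) := by
      funext a
      exact Prod.ext (hs1a a) (hs1b a)
    rw [this]
    refine Continuous.prodMk continuous_id ?_
    exact continuous_of_discreteTopology.comp (hT.weil.deg_cont X)
  have hquot : Topology.IsQuotientMap (T.fst X Y) :=
    Topology.IsQuotientMap.of_inverse hs1 hfst hs1a
  have hsurj : Function.Surjective (T.fst X Y) := hquot.surjective
  -- the key lemma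
  have hR2 : IsRep (pull σ2 A) := hA.pull σ2 hσ2
  have hα : IsRep (pull (T.snd X Y) (pull σ2 A)) := hR2.pull _ hsnd
  have hid : (LinearMap.id : A.V →ₗ[K] A.V) ∈
      homN (T.fst X Y) (pull (T.snd X Y) (pull σ2 A)) A := by
    intro n hn
    have h1 : σ2 (T.snd X Y n) = n := by
      refine huniq _ _ ?_ (hs2b _)
      rw [hn]
      change T.fst X Y (s2 _) = 1
      rw [hs2a, hds, ← hdf, hn, map_one, map_one]
    change (LinearMap.id : A.V →ₗ[K] A.V) ∘ₗ A.ρ (σ2 (T.snd X Y n)) = A.ρ n ∘ₗ LinearMap.id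
    rw [h1, LinearMap.id_comp, LinearMap.comp_id]
  have hkey := key (T.fst X Y) hsurj (pull (T.snd X Y) (pull σ2 A)) A
    (fun v => ⟨_, hid, v, rfl⟩)
  have hβ : IsRep (homRep (T.fst X Y) hsurj (pull (T.snd X Y) (pull σ2 A)) A) :=
    homRep_isRep _ hsurj hquot _ _ hα hA
  obtain ⟨a, b, ha, hb, hsa, hsb, hab⟩ := jh2 (T.fst X Y) (T.snd X Y) A hI
    (homRep (T.fst X Y) hsurj (pull (T.snd X Y) (pull σ2 A)) A) hβ.1 (pull σ2 A) hR2.1 hkey
  obtain ⟨c1, hc1⟩ := geo_some T hT X hX a (hβ.sub hsa) ha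
  obtain ⟨c2, hc2⟩ := geo_some T hT Y hY b (hR2.sub hsb) hb
  have h1 := sq_twist_tensor (T.deg (T.prod X Y)) (T.deg X) (T.deg Y) (T.fst X Y) (T.snd X Y)
    hdf hds c1 c2 A a b hab
  refine geo_untwist T hT _ A hA hI hd (c1 * c2) ?_
  exact hT.geo.sub _ _ _ (of_sqRel _ _ h1)
    (hT.geo.tensor _ _ _ (hk.geo_fst _ hc1) (hk.geo_snd _ hc2))

/-! ### Fibrations -/

/-- the image of the kernel of the fibration is finite -/
theorem finite_ker_image [IsAlgClosed K] {G H : Type} [Group G] [Group H] (f : G →* H)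
    (hf : VirtAb f) (V : Rep K G) (hV : Irr V) (hfd : FiniteDimensional K V.V) :
    {x | ∃ n : G, f n = 1 ∧ V.ρ n = x}.Finite := by
  obtain ⟨M, F, hM, hMf, hab, ⟨S, hS, hcov⟩, hF⟩ := hf
  have h1 := finite_abelian_image V hV hfd M hM hab F (fun k hk => by
    obtain ⟨S, hS, hc⟩ := hF k hk
    refine ⟨S, hS, fun m hm => ?_⟩
    obtain ⟨s, hs, b, ⟨m', hm', rfl⟩, he⟩ := hc m hm
    exact ⟨s, hs, m', hm', he⟩)
  refine ((hS.image V.ρ).image2 (fun x y => x * y) h1).subset ?_
  rintro _ ⟨n, hn, rfl⟩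
  obtain ⟨s, hs, m, hm, he⟩ := hcov n hn
  exact ⟨V.ρ s, ⟨s, hs, rfl⟩, V.ρ m, ⟨⟨m, hm⟩, rfl⟩, by rw [he, map_mul]⟩

/-- an open neighbourhood of `1` in which the elements of the kernel act trivially -/
theorem exists_open [T2Space K] {G H : Type} [Group G] [TopologicalSpace G] [Group H]
    (f : G →* H) (V : Rep K G) (hV : IsRep V)
    (hfin : {x | ∃ n : G, f n = 1 ∧ V.ρ n = x}.Finite) :
    ∃ O : Set G, IsOpen O ∧ 1 ∈ O ∧ ∀ n ∈ O, f n = 1 → V.ρ n = 1 := by
  classical
  have := hV.1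
  have hsep : ∀ x : Module.End K V.V, x ≠ 1 → ∃ (φ : Module.Dual K V.V) (v : V.V),
      φ (x v) ≠ φ v := by
    intro x hx
    by_contra hno
    push Not at hno
    apply hx
    apply LinearMap.ext
    intro v
    rw [← sub_eq_zero, ← Module.forall_dual_apply_eq_zero_iff K]
    intro φ
    rw [map_sub, hno φ v, Module.End.one_apply, sub_self]
  let O : Module.End K V.V → Set G := fun x =>
    if hx : x ≠ 1 then
      {g | (hsep x hx).choose (V.ρ g (hsep x hx).choose_spec.choose) ≠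
        (hsep x hx).choose (x (hsep x hx).choose_spec.choose)} else Set.univ
  have hO : ∀ x, IsOpen (O x) := by
    intro x
    by_cases hx : x ≠ 1
    · simp only [O, dif_pos hx]
      exact isOpen_ne.preimage (hV.2 _ _)
    · simp only [O, dif_neg hx]
      exact isOpen_univ
  refine ⟨⋂ x ∈ {x | ∃ n : G, f n = 1 ∧ V.ρ n = x}, O x, hfin.isOpen_biInter fun x _ => hO x,
    ?_, ?_⟩
  · rw [Set.mem_iInter₂]
    intro x _
    by_cases hx : x ≠ 1
    · simp only [O, dif_pos hx]
      change (hsep x hx).choose (V.ρ 1 (hsep x hx).choose_spec.choose) ≠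
        (hsep x hx).choose (x (hsep x hx).choose_spec.choose)
      rw [map_one, Module.End.one_apply]
      exact (hsep x hx).choose_spec.choose_spec.symm
    · simp only [O, dif_neg hx]
      trivial
  · intro n hn hfn
    by_contra hx
    rw [Set.mem_iInter₂] at hn
    have h1 := hn (V.ρ n) ⟨n, hfn, rfl⟩
    simp only [O] at h1
    rw [dif_pos hx] at h1
    exact h1 rfl

/-- equivariant maps from the permutation representation -/
theorem perm_hom {G H : Type} [Group G] [Group H] (f : G →* H) (V : Rep K G) (N : Subgroup G)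
    (htr : ∀ n ∈ N, f n = 1 → V.ρ n = 1) (v : V.V) :
    ∃ x ∈ homN f (perm K N) V, ∃ a : (perm K N).V, x a = v := by
  classical
  let w : G ⧸ N → V.V := fun γ =>
    if h : ∃ n : G, f n = 1 ∧ (n : G ⧸ N) = γ then V.ρ h.choose v else 0
  have hw1 : ∀ n : G, f n = 1 → w (n : G ⧸ N) = V.ρ n v := by
    intro n hn
    have h : ∃ n' : G, f n' = 1 ∧ (n' : G ⧸ N) = (n : G ⧸ N) := ⟨n, hn, rfl⟩
    simp only [w]
    rw [dif_pos h]
    obtain ⟨h1, h2⟩ := h.choose_spec
    rw [QuotientGroup.eq] at h2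
    have h3 := htr _ h2 (by rw [map_mul, map_inv, h1, hn, inv_one, one_mul])
    have h4 : V.ρ n = V.ρ h.choose * V.ρ (h.choose⁻¹ * n) := by
      rw [← map_mul]; congr 1; group
    rw [h4, h3, mul_one]
  have hw2 : ∀ γ : G ⧸ N, (¬ ∃ n : G, f n = 1 ∧ (n : G ⧸ N) = γ) → w γ = 0 := by
    intro γ h
    simp only [w]
    rw [dif_neg h]
  let x : ((G ⧸ N) →₀ K) →ₗ[K] V.V := Finsupp.linearCombination K w
  refine ⟨x, ?_, (Finsupp.single ((1 : G) : G ⧸ N) 1 : (G ⧸ N) →₀ K), ?_⟩
  · intro n hn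
    apply Finsupp.lhom_ext
    intro γ b
    have h1 : (perm K N).ρ n (Finsupp.single γ b) = Finsupp.single (n • γ) b := perm_act N n γ b
    change x ((perm K N).ρ n (Finsupp.single γ b)) = V.ρ n (x (Finsupp.single γ b))
    rw [h1]
    simp only [x, Finsupp.linearCombination_single, map_smul]
    congr 1
    by_cases h : ∃ n' : G, f n' = 1 ∧ (n' : G ⧸ N) = γ
    · obtain ⟨n', hn', rfl⟩ := h
      have h2 : n • (n' : G ⧸ N) = ((n * n' : G) : G ⧸ N) := rfl
      rw [h2, hw1 n' hn', hw1 (n * n') (by rw [map_mul, hn, hn', one_mul]), act_mul]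
    · rw [hw2 γ h, map_zero]
      apply hw2
      rintro ⟨n', hn', he⟩
      apply h
      refine ⟨n⁻¹ * n', by rw [map_mul, map_inv, hn, hn', inv_one, one_mul], ?_⟩
      have h2 : ((n⁻¹ * n' : G) : G ⧸ N) = n⁻¹ • (n' : G ⧸ N) := rfl
      rw [h2, he, inv_smul_smul]
  · have h9 : x (Finsupp.single ((1 : G) : G ⧸ N) (1 : K)) = v := by
      simp only [x, Finsupp.linearCombination_single, one_smul]
      rw [hw1 1 (map_one f), map_one, Module.End.one_apply]
    exact h9

theorem good_fib [IsAlgClosed K] [T2Space K] (T : Data K) (hT : Facts T) (X Y : T.Obj)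
    (h : T.Fib X Y) (hY : Good T Y) : Good T X := by
  intro A hA hI hd
  obtain ⟨f, hf, hva⟩ := hT.fib X Y h
  have := hT.weil.topgrp X
  obtain ⟨O, hO, hO1, hOtr⟩ := exists_open f A hA (finite_ker_image f hva A hI hA.1)
  obtain ⟨N, hN, hNf, hNo, hNd⟩ := hT.weil.prof X O hO hO1
  have htr : ∀ n ∈ N, f n = 1 → A.ρ n = 1 := by
    intro n hn hfn
    refine hOtr n (hNd n hn ?_) hfn
    rw [← hf.deg, hfn, map_one]
  have hα : IsRep (perm K N) := perm_isRep N hN hNf hNo
  have hgα : T.Geo X (perm K N) := hT.geo.artin X _ hα (perm_finite N hN hNf)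
  have hkey := key f hf.surj (perm K N) A (fun v => perm_hom f A N htr v)
  have hβ : IsRep (homRep f hf.surj (perm K N) A) := homRep_isRep _ hf.surj hf.quot _ _ hα hA
  obtain ⟨b, hb, hsb, hab⟩ := jh f (perm K N) A hI _ hβ.1 hkey
  obtain ⟨c, hc⟩ := geo_some T hT Y hY b (hβ.sub hsb) hb
  have h1 := sq_twist_tensor (T.deg X) (T.deg Y) (T.deg X) f (MonoidHom.id _)
    hf.deg (fun _ => rfl) c 1 A b (perm K N) hab
  have h2 : SqRel (pull (MonoidHom.id _) (twist (T.deg X) 1 (perm K N))) (perm K N) := by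
    refine SqRel.of_surj (A := pull (MonoidHom.id _) (twist (T.deg X) 1 (perm K N)))
      (B := perm K N) (LinearMap.id : ((T.W X ⧸ N) →₀ K) →ₗ[K] ((T.W X ⧸ N) →₀ K))
      Function.surjective_id ?_
    intro g x
    have h3 : ((chr (T.deg X) (1 : Kˣ) g : Kˣ) : K) = 1 := by
      unfold chr
      rw [MonoidHom.comp_apply, zpowersHom_apply, one_zpow, Units.val_one]
    have h4 : (((chr (T.deg X) (1 : Kˣ) g : Kˣ) : K) • (perm K N).ρ g) = (perm K N).ρ g := by
      rw [h3, one_smul]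
    exact (congrArg (fun z => z x) h4).symm
  refine geo_untwist T hT X A hA hI hd (c * 1) ?_
  exact hT.geo.sub _ _ _ (of_sqRel _ _ h1) (hT.geo.tensor _ _ _ (hf.geo _ hc)
    (hT.geo.sub _ _ _ (of_sqRel _ _ h2) hgα))

/-- The main theorem. -/
theorem main [IsAlgClosed K] [T2Space K] (T : Data K) (hT : Facts T) (S : T.Obj → Prop)
    (hS : ∀ X, S X → Good T X) (X : T.Obj) (hX : Gen T S X) : Good T X := by
  induction hX with
  | mem X h => exact hS X h
  | base X h => exact hT.geo.base X h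
  | prod X Y h _ _ h1 h2 => exact good_prod T hT X Y h h1 h2
  | fib X Y h _ h1 => exact good_fib T hT X Y h h1
  | dom Y X h _ h1 => exact good_dom T hT Y X h h1

end

end Pool.Agent.N522.GO
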